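import Pool.Agent.Lib.MP_8865d3_nt.Am.Fib

/-! The inequality with the multiplier ideal on projective bundles over an abelian variety. -/

namespace Pool.Agent.Lib.MP_8865d3_nt.Am

open Finset Matrix MvPolynomial Height NumberField
open Pool.Agent.Lib.MP_651af7_nt Pool.Agent.Lib.MP_8865d3_nt.Em Pool.Agent.Lib.MP_8865d3_nt.En
open Av (AV Adm eval_mul_of_hom zero_mul_of_hom iSup_mul_left logHeight_mul_left)
open As (Aff BiH biH_C biH_X biH_prod mainA absA_all)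
open Es (mn vol mn_map)
open Ex (lx sup_cmp)
open Rt (Pl av mu)

variable {k ι : Type} [Field k] [NumberField k] [Fintype ι]

theorem multA (V : AV k ι) (σ : k →+* ℂ) {n r q A A' : ℕ}
    (B : Matrix (Fin n) (Fin (r + 1)) (MvPolynomial ι k))
    (L : Fin q → Fin (r + 1) → MvPolynomial ι k) (h : Fin (A + 1) → MvPolynomial ι k)
    (e : Fin (A + 1) → Fin q → ℕ) {dG : Fin (A + 1) → ℕ}
    (hdG : ∀ m μ, (coeff μ (prd L (h m) (e m))).IsHomogeneous (dG m))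
    (f : Fin (A' + 1) → MvPolynomial (Fin (r + 1)) (MvPolynomial ι k)) (β : Fin (A' + 1) → ℕ)
    {df : Fin (A' + 1) → ℕ} (hdf : ∀ l μ, (coeff μ (f l)).IsHomogeneous (df l))
    (hβ : ∀ l, (f l).IsHomogeneous (β l))
    (hf : ∀ l, InMultA σ V.I (fun m => prd L (h m) (e m)) (f l)) {ε : ℝ} (hε : 0 < ε) :
    ∃ P : MvPolynomial (Fin (r + 1)) (MvPolynomial ι k), BiH V P ∧
      ∀ S : Finset (FinitePlace k), ∃ C : ℝ, ∀ (x : ι → k) (t : Fin (r + 1) → k),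
        Aff V V.ao x → eval₂ (eval x) t P ≠ 0 → mn (B.map (eval x)) ≠ 0 →
        (∀ m, eval₂ (eval x) t (prd L (h m) (e m)) ≠ 0) → (∀ l, eval₂ (eval x) t (f l) ≠ 0) →
        ∑ p : Pl S, mu p * ((⨅ m, lamM (av p) 0 (∑ j, e m j) ![0, 0, 1]
            (B.map (eval x) *ᵥ t) (eval₂ (eval x) t (prd L (h m) (e m)))) -
          ⨅ l, lamM (av p) 0 (β l) ![0, 0, 1] (B.map (eval x) *ᵥ t)
            (eval₂ (eval x) t (f l))) + logHeight (mn (B.map (eval x))) ≤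
          (r + 1) * logHeight (B.map (eval x) *ᵥ t) +
            ε * (logHeight x + logHeight (B.map (eval x) *ᵥ t)) + C := by
  classical
  obtain ⟨F, hF, H⟩ := mainA V V.ao (univ.image fun s : Fin q ⊕ Fin (r + 1) =>
    (Sum.elim L (fun i => Pi.single i 1) s : Fin (r + 1) → MvPolynomial ι k)) B (half_pos hε)
  choose Θ sΘ hΘ hΘI hZ using fun l => val_ptA V σ L h e hdG (hdf l) (hf l)
  obtain ⟨D₁, hD₁⟩ := Finite.exists_le fun m => ∑ j, e m j
  obtain ⟨D₂, hD₂⟩ := Finite.exists_le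
    fun z : Fin (A' + 1) × (Fin (r + 1) → Fin q ⊕ Fin (r + 1)) =>
      β z.1 + (hat (rowM L z.2) (f z.1)).support.card
  obtain ⟨C₁, hC₁, H1⟩ := mult_loc (k := k) n r q A A' (D₁ + D₂)
  obtain ⟨C₂, hC₂, H2⟩ := sup_cmp (K := k) n (r + 1)
  obtain ⟨Gs, -, -, g3, g4, g5, g6, g7, g8⟩ := multU_set (0 : MvPolynomial ι k) 0 B L h f
  refine ⟨F * (∏ l, X l) * ∏ l, C (Θ l), (hF.mul (biH_prod univ fun l _ => biH_X l)).mul
    (biH_prod univ fun l _ => biH_C (hΘ l) (hΘI l)), fun S => ?_⟩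
  choose Cr hCr using fun ρ : Pl S → Fin (r + 1) → Fin q ⊕ Fin (r + 1) =>
    H S (fun p => rowM L (ρ p)) fun p l => mem_image_of_mem _ (mem_univ _)
  obtain ⟨Wm, hW⟩ : ∃ Wm : ℝ, Wm = ∑ p : Pl S, (mu p : ℝ) := ⟨_, rfl⟩
  have hW0 : 0 ≤ Wm := hW ▸ sum_nonneg fun p _ => by positivity
  obtain ⟨s, hs⟩ : ∃ s : ℝ, s = ε / 2 / (Wm * (C₁ * (1 + C₂)) + 1) := ⟨_, rfl⟩
  have hs0 : 0 < s := by rw [hs]; positivity
  have hs1 : Wm * (C₁ * (1 + C₂)) * s ≤ ε / 2 := by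
    have : s * (Wm * (C₁ * (1 + C₂)) + 1) = ε / 2 := by rw [hs]; field_simp
    nlinarith
  obtain ⟨C₀, hC₀, H0⟩ := absA_all V V.ao S Gs hs0
  refine ⟨∑ ρ, |Cr ρ| + Wm * (C₁ * (1 + C₂)) * (1 + C₀), fun x t hE hev hmn hG hfl => ?_⟩
  rw [eval₂_mul, eval₂_mul, eval₂_prod, eval₂_prod, mul_ne_zero_iff, mul_ne_zero_iff,
    prod_ne_zero_iff, prod_ne_zero_iff] at hev
  have ht : ∀ l, t l ≠ 0 := fun l => by simpa using hev.1.2 l (mem_univ _)
  have hxZ : ∀ l, eval x (Θ l) ≠ 0 := fun l => by simpa using hev.2 l (mem_univ _)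
  have hht := logHeight_nonneg x
  obtain ⟨c₀, hc₀⟩ : ∃ c₀, c₀ = s * logHeight x + C₀ := ⟨_, rfl⟩
  have hc0 : 0 ≤ c₀ := by rw [hc₀]; positivity
  have hcc : c₀ ≤ c₀ + C₂ * (1 + c₀) := le_add_of_nonneg_right (by positivity)
  have k0 := H0 x hE
  rw [← hc₀] at k0
  have k1 : ∀ p : Pl S, ∀ g ∈ Gs, av p (eval x g) ≤ Real.exp (c₀ + C₂ * (1 + c₀)) :=
    fun p g hg => (k0 p g hg).1.trans (Real.exp_le_exp.2 hcc)
  have k2 : ∀ p : Pl S, ∀ g ∈ Gs, eval x g ≠ 0 →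
      Real.exp (-(c₀ + C₂ * (1 + c₀))) ≤ av p (eval x g) :=
    fun p g hg h0 => (Real.exp_le_exp.2 (neg_le_neg hcc)).trans ((k0 p g hg).2 h0)
  obtain ⟨φ, hφ⟩ : ∃ φ : MvPolynomial ι k →+* k, φ = eval x := ⟨_, rfl⟩
  have hZ' := fun l => hZ l x hE (hxZ l)
  have hCr' := fun ρ => hCr ρ x t hE hev.1.1 hmn
  rw [← hφ] at hmn hG hfl k0 k1 k2 hZ' hCr' ⊢
  simp only [← eval_map, prd_map] at hG hfl ⊢
  have hG1 : ∀ m, φ (h m) ≠ 0 := fun m => by
    have := hG m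
    rw [eval_prd] at this
    exact left_ne_zero_of_mul this
  have hG2 : ∀ j ∈ univ.filter fun j => ∃ m, e m j ≠ 0, (fun i => φ (L j i)) ⬝ᵥ t ≠ 0 := by
    intro j hj h0
    obtain ⟨m, hm⟩ := (mem_filter.1 hj).2
    have := hG m
    rw [eval_prd] at this
    exact prod_ne_zero_iff.1 (right_ne_zero_of_mul this) j (mem_univ _) (by rw [h0, zero_pow hm])
  choose ρ hρ1 hρ2 hρ3 using fun p : Pl S =>
    greedy_rows (av p) (fun j i => φ (L j i)) _ t hG2 ht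
  obtain ⟨e₀, he₀⟩ := Function.ne_iff.1 hmn
  have h1 := hCr' ρ (fun p => by rw [rowM_map]; exact hρ1 p) fun p => by rw [rowM_map]; exact hρ2 p
  simp only [vol, rowM_map] at h1
  have h2 : ∀ p : Pl S, (⨅ m, lamM (av p) 0 (∑ j, e m j) ![0, 0, 1] (B.map φ *ᵥ t)
      (eval t (prd (fun j i => φ (L j i)) (φ (h m)) (e m)))) -
      (⨅ l, lamM (av p) 0 (β l) ![0, 0, 1] (B.map φ *ᵥ t) (eval t (map φ (f l)))) ≤
      ∑ l, lx (av p) (B.map φ *ᵥ t) ((rowM (fun j i => φ (L j i)) (ρ p) *ᵥ t) l) +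
        C₁ * (1 + (c₀ + C₂ * (1 + c₀))) := by
    intro p
    have hN := rowM_map φ L (ρ p)
    have hd : (rowM (fun j i => φ (L j i)) (ρ p)).det = φ (rowM L (ρ p)).det := by
      rw [← hN]
      exact (φ.map_det _).symm
    have hh : ∀ g, hat (rowM (fun j i => φ (L j i)) (ρ p)) (map φ g) =
        map φ (hat (rowM L (ρ p)) g) := fun g => by rw [hat_map, hN]
    have ha : ∀ j l, φ ((L j ᵥ* (rowM L (ρ p)).adjugate) l) =
        ((fun i => φ (L j i)) ᵥ* (rowM (fun j i => φ (L j i)) (ρ p)).adjugate) l := fun j l => by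
      rw [RingHom.map_vecMul, ← hN]
      exact congrArg (fun M => ((φ ∘ L j) ᵥ* M) l) (φ.map_adjugate (rowM L (ρ p)))
    obtain ⟨s1, s2⟩ := H2 (av p) (B.map φ) e₀ t c₀ hc0 (fun i j => (k0 p _ (g4 i j)).1)
      (by rw [mn_map] at he₀ ⊢; exact (k0 p _ (g5 e₀)).2 he₀) fun h0 => ht 0 (congrFun h0 0)
    have z0 : av p 0 ≤ Real.exp (c₀ + C₂ * (1 + c₀)) := by
      rw [map_zero]
      positivity
    refine H1 (av p) _ (fun m => φ (h m)) e (fun l => map φ (f l)) β (fun _ => 0) (fun _ => 0) _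
      0 0 t _ _ (hc0.trans hcc) (fun m => ?_) (fun l => ⟨?_, (hβ l).map φ, ?_⟩) ⟨fun i j => ?_, ?_⟩
      ?_ z0 z0 (fun m => k2 p _ (g3 m) (hG1 m)) (fun l μ => ?_) s1
      (s2.trans (le_add_of_nonneg_left hc0)) (hρ2 p) hG hfl
      (fun m j l hj => hρ3 p j (mem_filter.2 ⟨mem_univ _, m, hj⟩) l)
      fun Wt w ν w1 w2 w3 w4 l => ?_
    · have := hD₁ m
      omega
    · have := hD₂ (l, ρ p)
      simp only at this
      omega
    · have := hD₂ (l, ρ p)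
      have h3 := card_le_card (support_map_subset φ (hat (rowM L (ρ p)) (f l)))
      simp only at this
      rw [hh]
      omega
    · rw [← hN]
      exact k1 p _ (g6 _ i j)
    · rw [hd]
      exact k2 p _ (g7 _) (hd ▸ hρ1 p)
    · rw [hd]
      exact k1 p _ (g7 _)
    · rw [hh, coeff_map]
      exact k1 p _ (g8 _ l μ)
    · rw [hh]
      refine hZ' l (ρ p) (hN ▸ hρ1 p) ⟨0, fun h0 => ?_⟩ Wt w ν w1 w2
        (fun m j l hj hl => w3 m j l hj (ha j l ▸ hl)) w4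
      have h3 := eval_hat_mul (rowM (fun j i => φ (L j i)) (ρ p))
        (multU_hom (fun j i => φ (L j i)) (φ (h 0)) (e 0)) t
      rw [← prd_map, hh, h0, map_zero, prd_map] at h3
      exact mul_ne_zero (pow_ne_zero _ (hρ1 p)) (hG 0) h3.symm
  have h3 := sum_le_sum fun (p : Pl S) (_ : p ∈ univ) =>
    mul_le_mul_of_nonneg_left (h2 p) (Nat.cast_nonneg (mu p))
  simp only [mul_add (mu _ : ℝ), sum_add_distrib, ← sum_mul, ← hW] at h3
  have h4 : Cr ρ ≤ ∑ ρ, |Cr ρ| := (le_abs_self _).trans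
    (single_le_sum (f := fun ρ => |Cr ρ|) (fun _ _ => abs_nonneg _) (mem_univ ρ))
  have h5 := mul_le_mul_of_nonneg_right hs1 hht
  have h6 := mul_nonneg hε.le (logHeight_nonneg (B.map φ *ᵥ t))
  have h7 : Wm * (C₁ * (1 + (c₀ + C₂ * (1 + c₀)))) =
      Wm * (C₁ * (1 + C₂)) * s * logHeight x + Wm * (C₁ * (1 + C₂)) * (1 + C₀) := by
    rw [hc₀]
    ring
  push_cast at h1
  linarith

/-- The local height at `(x, X)` of the divisor of a form with value `y`, of degree `d` in `x` and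
`β` in the fibre, where `X` has degree `b` in `x`. -/
noncomputable def lamA {n : ℕ} (v : AbsoluteValue k ℝ) (d b β : ℕ) (x : ι → k) (X : Fin n → k)
    (y : k) : ℝ :=
  Real.log ((⨆ a, v (x a)) ^ d * (⨆ i, v (X i)) ^ β / ((⨆ a, v (x a)) ^ (b * β) * v y))

omit [NumberField k] [Fintype ι] in
theorem lamA_scale {n : ℕ} (v : AbsoluteValue k ℝ) (d b β : ℕ) (x : ι → k) (Y : Fin n → k) (y : k)
    {c : k} (hc : c ≠ 0) :
    lamA v d b β (fun a => c * x a) (c ^ b • Y) (c ^ d * y) = lamA v d b β x Y y := by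
  have h1 : ⨆ i, v ((c ^ b • Y) i) = v c ^ b * ⨆ i, v (Y i) := by
    rw [← map_pow]
    exact iSup_mul_left v (c ^ b) Y
  have h2 : v c ≠ 0 := v.ne_zero hc
  rw [lamA, lamA, h1, iSup_mul_left, map_mul, map_pow, mul_pow, mul_pow, mul_pow, ← pow_mul,
    ← mul_div_mul_left ((⨆ a, v (x a)) ^ d * (⨆ i, v (Y i)) ^ β) _
      (mul_ne_zero (pow_ne_zero d h2) (pow_ne_zero (b * β) h2))]
  congr 2 <;> ring

omit [NumberField k] [Fintype ι] in
theorem lamA_eq {n : ℕ} (v : AbsoluteValue k ℝ) (d b β : ℕ) {x : ι → k} {Y : Fin n → k} {y : k}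
    (hx : 0 < ⨆ a, v (x a)) (hY : Y ≠ 0) (hy : y ≠ 0) :
    lamA v d b β x Y y = lamM v 0 β ![0, 0, 1] Y y +
      (d * Real.log (⨆ a, v (x a)) - (b * β : ℕ) * Real.log (⨆ a, v (x a))) := by
  have h1 := main_ml_sup_pos v hY
  have h2 := v.pos hy
  rw [lamA, lamM, pow_zero, one_mul, Real.log_div (by positivity) (by positivity),
    Real.log_div (by positivity) (by positivity), Real.log_mul (by positivity) (by positivity),
    Real.log_mul (by positivity) (by positivity), Real.log_pow, Real.log_pow, Real.log_pow]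
  ring

theorem inf_sub_le {A A' : ℕ} {a a' : Fin (A + 1) → ℝ} {b b' : Fin (A' + 1) → ℝ} {u w : ℝ}
    (h1 : ∀ m, a m ≤ a' m + u) (h2 : ∀ l, b' l ≤ b l + w) :
    (⨅ m, a m) - ⨅ l, b l ≤ ((⨅ m, a' m) - ⨅ l, b' l) + (u + w) := by
  obtain ⟨m, hm⟩ := exists_eq_ciInf_of_finite (f := a')
  obtain ⟨l, hl⟩ := exists_eq_ciInf_of_finite (f := b)
  have e1 : ⨅ m, a m ≤ a m := ciInf_le (Set.finite_range _).bddBelow m
  have e2 : ⨅ l, b' l ≤ b' l := ciInf_le (Set.finite_range _).bddBelow l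
  linarith [h1 m, h2 l]

omit [NumberField k] [Fintype ι] in
theorem eval₂_scale' {r : ℕ} {P : MvPolynomial (Fin r) (MvPolynomial ι k)} {d : ℕ}
    (hP : ∀ μ, (coeff μ P).IsHomogeneous d) (c : k) (x : ι → k) (t : Fin r → k) :
    eval₂ (eval fun a => c * x a) t P = c ^ d * eval₂ (eval x) t P := by
  rw [eval₂_eq, eval₂_eq, Finset.mul_sum]
  exact Finset.sum_congr rfl fun μ _ => by rw [eval_mul_of_hom (hP μ), mul_assoc]

theorem multB (V : AV k ι) (σ : k →+* ℂ) {n r q A A' b : ℕ}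
    (B : Matrix (Fin n) (Fin (r + 1)) (MvPolynomial ι k)) (hB : ∀ i j, (B i j).IsHomogeneous b)
    (L : Fin q → Fin (r + 1) → MvPolynomial ι k) (h : Fin (A + 1) → MvPolynomial ι k)
    (e : Fin (A + 1) → Fin q → ℕ) {dG : Fin (A + 1) → ℕ}
    (hdG : ∀ m μ, (coeff μ (prd L (h m) (e m))).IsHomogeneous (dG m))
    (f : Fin (A' + 1) → MvPolynomial (Fin (r + 1)) (MvPolynomial ι k)) (β : Fin (A' + 1) → ℕ)
    {df : Fin (A' + 1) → ℕ} (hdf : ∀ l μ, (coeff μ (f l)).IsHomogeneous (df l))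
    (hβ : ∀ l, (f l).IsHomogeneous (β l))
    (hf : ∀ l, InMultA σ V.I (fun m => prd L (h m) (e m)) (f l)) {ε : ℝ} (hε : 0 < ε) :
    ∃ P : MvPolynomial (Fin (r + 1)) (MvPolynomial ι k), BiH V P ∧
      ∀ S : Finset (FinitePlace k), ∃ C : ℝ, ∀ (x : ι → k) (t : Fin (r + 1) → k),
        (∀ g ∈ V.I, eval x g = 0) → eval₂ (eval x) t P ≠ 0 → mn (B.map (eval x)) ≠ 0 →
        (∀ m, eval₂ (eval x) t (prd L (h m) (e m)) ≠ 0) → (∀ l, eval₂ (eval x) t (f l) ≠ 0) →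
        ∑ p : Pl S, mu p * ((⨅ m, lamA (av p) (dG m) b (∑ j, e m j) x
            (B.map (eval x) *ᵥ t) (eval₂ (eval x) t (prd L (h m) (e m)))) -
          ⨅ l, lamA (av p) (df l) b (β l) x (B.map (eval x) *ᵥ t)
            (eval₂ (eval x) t (f l))) + logHeight (mn (B.map (eval x))) ≤
          (r + 1) * logHeight (B.map (eval x) *ᵥ t) +
            ε * (logHeight x + logHeight (B.map (eval x) *ᵥ t)) + C := by
  classical
  obtain ⟨P, hP, H⟩ := multA V σ B L h e hdG f β hdf hβ hf (half_pos hε)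
  refine ⟨C (X V.ao) * (X 0 * P),
    (biH_C (isHomogeneous_X k V.ao) (X_ao_notMem V)).mul ((biH_X 0).mul hP), fun S => ?_⟩
  obtain ⟨C₁, h₁⟩ := H S
  obtain ⟨D₁, hD₁⟩ := Finite.exists_le dG
  obtain ⟨D₂, hD₂⟩ := Finite.exists_le fun l => b * β l
  obtain ⟨W, hW⟩ : ∃ W : ℝ, W = (∑ p : Pl S, (mu p : ℝ)) * (D₁ + D₂) := ⟨_, rfl⟩
  have hW0 : 0 ≤ W := by
    rw [hW]
    positivity
  obtain ⟨C₂, hC₂, h₂⟩ := absA_all V V.ao S (univ.image X)
    (ε := ε / 2 / (W + 1)) (by positivity)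
  refine ⟨C₁ + W * C₂, fun x t hI hne hmn hG hfl => ?_⟩
  rw [eval₂_mul, eval₂_C, eval_X, eval₂_mul, eval₂_X, mul_ne_zero_iff, mul_ne_zero_iff] at hne
  obtain ⟨c, y, hc, hy, rfl⟩ : ∃ (c : k) (y : ι → k), c ≠ 0 ∧ y V.ao = 1 ∧ x = fun a => c * y a :=
    ⟨x V.ao, fun a => (x V.ao)⁻¹ * x a, hne.1, inv_mul_cancel₀ hne.1,
      funext fun a => (mul_inv_cancel_left₀ hne.1 _).symm⟩
  have hy' : Aff V V.ao y := by
    refine ⟨hy, fun f hf => ?_⟩
    have := zero_mul_of_hom V.hom (v := fun a => c * y a)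
      (fun f hf => by rw [aeval_eq_eval]; exact hI f hf) c⁻¹ f hf
    simp only [inv_mul_cancel_left₀ hc, aeval_eq_eval] at this
    exact this
  have eB : B.map (eval fun a => c * y a) = c ^ b • B.map (eval y) := by
    ext i j
    exact eval_mul_of_hom (hB i j) c y
  have hcb := pow_ne_zero b hc
  rw [eB, Es.mn_smul] at hmn
  replace hmn : mn (B.map (eval y)) ≠ 0 := fun h0 => hmn (by rw [h0, smul_zero])
  simp only [eval₂_scale' (hdG _)] at hG
  simp only [eval₂_scale' (hdf _)] at hfl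
  replace hG := fun m => right_ne_zero_of_mul (hG m)
  replace hfl := fun l => right_ne_zero_of_mul (hfl l)
  simp only [eB, eval₂_scale' (hdG _), eval₂_scale' (hdf _), Matrix.smul_mulVec,
    lamA_scale _ _ _ _ _ _ _ hc, Es.mn_smul, logHeight_smul_eq_logHeight _ hcb,
    logHeight_smul_eq_logHeight _ (pow_ne_zero (r + 1) hcb), logHeight_mul_left hc]
  have h3 := h₁ y t hy' ((hP.scale hc y t).1 hne.2.2) hmn hG hfl
  have hY : B.map (eval y) *ᵥ t ≠ 0 := fun h0 => by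
    obtain ⟨u, hu⟩ := Function.ne_iff.1 hmn
    have h1 : (B.map (eval y)).submatrix u id *ᵥ t = 0 := funext fun i => congrFun h0 (u i)
    exact hne.2.1 (congrFun (Matrix.eq_zero_of_mulVec_eq_zero hu h1) 0)
  have h4 : ∀ p : Pl S, 1 ≤ ⨆ a, av p (y a) := fun p => by
    have := le_ciSup (f := fun a => av p (y a)) (Finite.bddAbove_range _) V.ao
    rwa [hy, map_one] at this
  have h0 := logHeight_nonneg y
  have h5 : ∀ p : Pl S, Real.log (⨆ a, av p (y a)) ≤ ε / 2 / (W + 1) * logHeight y + C₂ := by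
    intro p
    rw [Real.log_le_iff_le_exp (lt_of_lt_of_le one_pos (h4 p))]
    refine Real.iSup_le (fun a => ?_) (Real.exp_pos _).le
    simpa using (h₂ y hy' p (X a) (mem_image_of_mem _ (mem_univ a))).1
  obtain ⟨c₀, hc₀⟩ : ∃ c₀, c₀ = ε / 2 / (W + 1) * logHeight y + C₂ := ⟨_, rfl⟩
  rw [← hc₀] at h5
  have h6 := sum_le_sum fun (p : Pl S) (_ : p ∈ univ) => mul_le_mul_of_nonneg_left
    (inf_sub_le (u := D₁ * c₀) (w := D₂ * c₀)
      (a := fun m => lamA (av p) (dG m) b (∑ j, e m j) y (B.map (eval y) *ᵥ t)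
        (eval₂ (eval y) t (prd L (h m) (e m))))
      (b := fun l => lamA (av p) (df l) b (β l) y (B.map (eval y) *ᵥ t) (eval₂ (eval y) t (f l)))
      (a' := fun m => lamM (av p) 0 (∑ j, e m j) ![0, 0, 1] (B.map (eval y) *ᵥ t)
        (eval₂ (eval y) t (prd L (h m) (e m))))
      (b' := fun l => lamM (av p) 0 (β l) ![0, 0, 1] (B.map (eval y) *ᵥ t)
        (eval₂ (eval y) t (f l)))
      (fun m => by
        have a0 := Real.log_nonneg (h4 p)
        have a1 : (dG m : ℝ) ≤ D₁ := by exact_mod_cast hD₁ m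
        have a2 := mul_le_mul a1 (h5 p) a0 (Nat.cast_nonneg _)
        have a3 := mul_nonneg (Nat.cast_nonneg (α := ℝ) (b * ∑ j, e m j)) a0
        rw [lamA_eq _ _ _ _ (one_pos.trans_le (h4 p)) hY (hG m)]
        linarith)
      (fun l => by
        have a0 := Real.log_nonneg (h4 p)
        have a1 : ((b * β l : ℕ) : ℝ) ≤ D₂ := by exact_mod_cast hD₂ l
        have a2 := mul_le_mul a1 (h5 p) a0 (Nat.cast_nonneg _)
        have a3 := mul_nonneg (Nat.cast_nonneg (α := ℝ) (df l)) a0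
        rw [lamA_eq _ _ _ _ (one_pos.trans_le (h4 p)) hY (hfl l)]
        linarith)) (Nat.cast_nonneg (mu p))
  simp only [mul_add (mu _ : ℝ), sum_add_distrib, ← sum_mul] at h6
  have h7 : W * (ε / 2 / (W + 1) * logHeight y) ≤ ε / 2 * logHeight y := by
    rw [← mul_assoc]
    refine mul_le_mul_of_nonneg_right ?_ h0
    rw [← mul_div_assoc, div_le_iff₀ (by positivity)]
    nlinarith
  have h8 : 0 ≤ ε * logHeight (B.map (eval y) *ᵥ t) :=
    mul_nonneg hε.le (logHeight_nonneg _)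
  have h9 : (∑ p : Pl S, (mu p : ℝ)) * (D₁ * c₀) + (∑ p : Pl S, (mu p : ℝ)) * (D₂ * c₀) =
      W * (ε / 2 / (W + 1) * logHeight y) + W * C₂ := by
    rw [← mul_add, ← mul_add, ← hc₀, hW]
    ring
  linarith

theorem multF (V : AV k ι) (σ : k →+* ℂ) {T : Type} [Fintype T] (G : T → MvPolynomial ι k) {d : ℕ}
    (hG : ∀ j, (G j).IsHomogeneous d)
    (hc : 2 ≤ ((Ideal.span (Set.range G)).map (Ideal.Quotient.mk V.I)).height) {n r q A A' b : ℕ}
    (B : Matrix (Fin n) (Fin (r + 1)) (MvPolynomial ι k)) (hB : ∀ i j, (B i j).IsHomogeneous b)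
    (L : Fin q → Fin (r + 1) → MvPolynomial ι k) (h : Fin (A + 1) → MvPolynomial ι k)
    (e : Fin (A + 1) → Fin q → ℕ) {dG : Fin (A + 1) → ℕ}
    (hdG : ∀ m μ, (coeff μ (prd L (h m) (e m))).IsHomogeneous (dG m))
    (f : Fin (A' + 1) → MvPolynomial (Fin (r + 1)) (MvPolynomial ι k)) (β : Fin (A' + 1) → ℕ)
    {df : Fin (A' + 1) → ℕ} (hdf : ∀ l μ, (coeff μ (f l)).IsHomogeneous (df l))
    (hβ : ∀ l, (f l).IsHomogeneous (β l))
    (hf : ∀ l, InMultA σ V.I (fun m => prd L (h m) (e m)) (f l)) {ε : ℝ} (hε : 0 < ε) :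
    ∃ P : MvPolynomial (Fin (r + 1)) (MvPolynomial ι k), BiH V P ∧
      ∀ S : Finset (FinitePlace k), ∃ C : ℝ, ∀ (x : ι → k) (t : Fin (r + 1) → k), x ≠ 0 →
        (∀ g ∈ V.I, eval x g = 0) → eval₂ (eval x) t P ≠ 0 → mn (B.map (eval x)) ≠ 0 →
        (∀ m, eval₂ (eval x) t (prd L (h m) (e m)) ≠ 0) → (∀ l, eval₂ (eval x) t (f l) ≠ 0) →
        (fun j => eval x (G j)) ≠ 0 ∧
        (d * logHeight x - logHeight fun j => eval x (G j)) +
        (logHeight (mn (B.map (eval x))) - (r + 1) * logHeight (B.map (eval x) *ᵥ t)) +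
        ∑ p : Pl S, mu p * ((⨅ m, lamA (av p) (dG m) b (∑ j, e m j) x
            (B.map (eval x) *ᵥ t) (eval₂ (eval x) t (prd L (h m) (e m)))) -
          ⨅ l, lamA (av p) (df l) b (β l) x (B.map (eval x) *ᵥ t)
            (eval₂ (eval x) t (f l))) ≤
          ε * (logHeight x + logHeight (B.map (eval x) *ᵥ t)) + C := by
  obtain ⟨P, h1, h2⟩ := multB V σ B hB L h e hdG f β hdf hβ hf (half_pos hε)
  obtain ⟨Θ, m, C₁, k1, k2, k3⟩ := V.gcd_part G hG hc (half_pos hε)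
  refine ⟨P * C Θ, h1.mul (biH_C k1 k2), fun S => ?_⟩
  obtain ⟨C₀, h3⟩ := h2 S
  refine ⟨C₀ + C₁, fun x t x0 xz xP hm hg hl => ?_⟩
  rw [eval₂_mul, eval₂_C, mul_ne_zero_iff] at xP
  refine ⟨(k3 x x0 xz xP.2).1, ?_⟩
  have e0 := h3 x t xz xP.1 hm hg hl
  have e1 := (k3 x x0 xz xP.2).2
  have e5 := mul_nonneg hε.le (logHeight_nonneg (B.map (eval x) *ᵥ t))
  linarith

end Pool.Agent.Lib.MP_8865d3_nt.Am
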