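import Pool.Agent.Lib.MP_651af7_nt.As.XFin

/-! Copy of `Em/Loc` and of the parts of `Em/Fib`, `Em/Main` that do not involve elliptic curves,
with fewer imports. -/

namespace Pool.Agent.Lib.MP_8865d3_nt.En

section

open Finset Matrix MvPolynomial

variable {R : Type} [CommRing R] {r q : ℕ}

/-- The matrix whose rows are chosen among the forms `L j` and the unit vectors. -/
def rowM (L : Fin q → Fin r → R) (ρ : Fin r → Fin q ⊕ Fin r) : Matrix (Fin r) (Fin r) R :=
  Matrix.of fun l => Sum.elim L (fun i => Pi.single i 1) (ρ l)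

/-- The polynomial `f` in the coordinates `z = N t`, with denominators cleared. -/
noncomputable def hat (N : Matrix (Fin r) (Fin r) R) (f : MvPolynomial (Fin r) R) :
    MvPolynomial (Fin r) R := aeval (fun i => ∑ l, C (N.adjugate i l) * X l) f

/-- A base function times a product of linear forms. -/
noncomputable def prd (L : Fin q → Fin r → R) (h : R) (e : Fin q → ℕ) : MvPolynomial (Fin r) R :=
  C h * ∏ j, (∑ i, C (L j i) * X i) ^ e j

theorem rowM_map {R' : Type} [CommRing R'] (φ : R →+* R') (L : Fin q → Fin r → R)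
    (ρ : Fin r → Fin q ⊕ Fin r) : (rowM L ρ).map φ = rowM (fun j i => φ (L j i)) ρ := by
  ext l i
  simp only [rowM, Matrix.map_apply, Matrix.of_apply]
  cases ρ l with
  | inl j => rfl
  | inr j =>
    simp only [Sum.elim_inr, Pi.single_apply]
    split_ifs <;> simp

/- `RingHom.map_adjugate`, induction on `f`. -/
theorem hat_map {R' : Type} [CommRing R'] (φ : R →+* R') (N : Matrix (Fin r) (Fin r) R)
    (f : MvPolynomial (Fin r) R) : map φ (hat N f) = hat (N.map φ) (map φ f) := by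
  have h : (N.map φ).adjugate = N.adjugate.map φ := (RingHom.map_adjugate φ N).symm
  unfold hat
  induction f using MvPolynomial.induction_on with
  | C a => simp
  | add p q hp hq => simp only [map_add, hp, hq]
  | mul_X p i hp =>
    simp only [map_mul, hp, map_X, aeval_X, map_sum, map_C, h, Matrix.map_apply]

theorem prd_map {R' : Type} [CommRing R'] (φ : R →+* R') (L : Fin q → Fin r → R) (h : R)
    (e : Fin q → ℕ) : map φ (prd L h e) = prd (fun j i => φ (L j i)) (φ h) e := by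
  simp only [prd, map_mul, map_prod, map_pow, map_sum, map_C, map_X]

theorem eval_prd (L : Fin q → Fin r → R) (h : R) (e : Fin q → ℕ) (t : Fin r → R) :
    eval t (prd L h e) = h * ∏ j, (L j ⬝ᵥ t) ^ e j := by
  simp only [prd, map_mul, map_prod, map_pow, map_sum, eval_C, eval_X, dotProduct]

theorem eval_hat (N : Matrix (Fin r) (Fin r) R) (f : MvPolynomial (Fin r) R) (z : Fin r → R) :
    eval z (hat N f) = eval (N.adjugate *ᵥ z) f := by
  unfold hat
  induction f using MvPolynomial.induction_on with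
  | C a => simp
  | add p q hp hq => simp only [map_add, hp, hq]
  | mul_X p i hp =>
    simp only [map_mul, hp, aeval_X, map_sum, eval_C, eval_X, Matrix.mulVec, dotProduct]

/- `eval_hat`, `adjugate_mul`; compare `hom_scale` (`Es/Hom`). -/
theorem eval_hat_mul (N : Matrix (Fin r) (Fin r) R) {f : MvPolynomial (Fin r) R} {β : ℕ}
    (hf : f.IsHomogeneous β) (t : Fin r → R) :
    eval (N *ᵥ t) (hat N f) = N.det ^ β * eval t f := by
  rw [eval_hat, Matrix.mulVec_mulVec, Matrix.adjugate_mul, Matrix.smul_mulVec, Matrix.one_mulVec,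
    eval_eq', eval_eq', Finset.mul_sum]
  refine Finset.sum_congr rfl fun μ hμ => ?_
  have h1 : ∑ i, μ i = β := by
    have h2 := hf (mem_support_iff.mp hμ)
    rw [← h2, Finsupp.weight_apply, Finsupp.sum_fintype _ _ (by simp)]
    simp
  simp only [Pi.smul_apply, smul_eq_mul, mul_pow, Finset.prod_mul_distrib,
    Finset.prod_pow_eq_pow_sum, h1]
  ring

/- `IsHomogeneous.aeval`. -/
theorem hat_hom (N : Matrix (Fin r) (Fin r) R) {f : MvPolynomial (Fin r) R} {β : ℕ}
    (hf : f.IsHomogeneous β) : (hat N f).IsHomogeneous β := by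
  have h := hf.aeval (fun i => ∑ l, C (N.adjugate i l) * X l : Fin r → MvPolynomial (Fin r) R)
    (n := 1) (fun i => IsHomogeneous.sum _ _ _ fun l _ => isHomogeneous_C_mul_X _ _)
  rwa [one_mul] at h

theorem hat_prd (N : Matrix (Fin r) (Fin r) R) (L : Fin q → Fin r → R) (h : R) (e : Fin q → ℕ) :
    hat N (prd L h e) = prd (fun j => L j ᵥ* N.adjugate) h e := by
  simp only [hat, prd, map_mul, map_prod, map_pow, map_sum, aeval_C, aeval_X, algebraMap_eq]
  congr 1
  refine Finset.prod_congr rfl fun j _ => ?_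
  congr 1
  simp only [Finset.mul_sum, Matrix.vecMul, dotProduct, map_sum, map_mul, Finset.sum_mul, mul_assoc]
  exact Finset.sum_comm

theorem Loc_low_mul {σ : Type} (W : σ → ℝ) {P Q : MvPolynomial σ R} {a b : ℝ}
    (hP : ∀ μ ∈ P.support, a ≤ Finsupp.weight W μ) (hQ : ∀ μ ∈ Q.support, b ≤ Finsupp.weight W μ) :
    ∀ μ ∈ (P * Q).support, a + b ≤ Finsupp.weight W μ := by
  classical
  intro μ hμ
  obtain ⟨μ₁, h₁, μ₂, h₂, rfl⟩ := Finset.mem_add.1 (support_mul P Q hμ)
  rw [map_add]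
  exact add_le_add (hP _ h₁) (hQ _ h₂)

theorem Loc_low_C {σ : Type} (W : σ → ℝ) (h : R) :
    ∀ μ ∈ (C h : MvPolynomial σ R).support, (0 : ℝ) ≤ Finsupp.weight W μ := by
  classical
  intro μ hμ
  have h1 : μ = 0 := by
    have := support_monomial_subset (show μ ∈ (monomial (0 : σ →₀ ℕ) h).support from hμ)
    simpa using this
  rw [h1, map_zero]

theorem Loc_low_pow {σ : Type} (W : σ → ℝ) {P : MvPolynomial σ R} {a : ℝ}
    (hP : ∀ μ ∈ P.support, a ≤ Finsupp.weight W μ) (n : ℕ) :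
    ∀ μ ∈ (P ^ n).support, n * a ≤ Finsupp.weight W μ := by
  induction n with
  | zero =>
    rw [pow_zero, Nat.cast_zero, zero_mul, ← C_1]
    exact Loc_low_C W 1
  | succ n ih =>
    rw [pow_succ, Nat.cast_succ, add_one_mul]
    exact Loc_low_mul W ih hP

theorem Loc_low_lin (W : Fin r → ℝ) (u : Fin r → R) {a : ℝ} (h : ∀ l, u l ≠ 0 → a ≤ W l) :
    ∀ μ ∈ (∑ i, C (u i) * X i : MvPolynomial (Fin r) R).support, a ≤ Finsupp.weight W μ := by
  classical
  intro μ hμ
  obtain ⟨i, -, hi⟩ := Finset.mem_biUnion.1 (support_sum hμ)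
  have hu : u i ≠ 0 := by
    rintro h0
    simp [h0] at hi
  rw [C_mul_X_eq_monomial] at hi
  have h1 : μ = Finsupp.single i 1 := by simpa using support_monomial_subset hi
  rw [h1, Finsupp.weight_single, one_smul]
  exact h i hu

/- The property `∀ μ ∈ P.support, ν ≤ weight W μ` is additive under products (`support_mul`) and stable under
sums (`support_add`); induction on `e j` and on the product. -/
theorem low_prd (L : Fin q → Fin r → R) (h : R) (e : Fin q → ℕ) (W : Fin r → ℝ) (w : Fin q → ℝ)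
    (hw : ∀ j l, e j ≠ 0 → L j l ≠ 0 → w j ≤ W l) :
    ∀ μ ∈ (prd L h e).support, ∑ j, e j * w j ≤ Finsupp.weight W μ := by
  classical
  have h1 : ∀ s : Finset (Fin q), ∀ μ ∈ (∏ j ∈ s, (∑ i, C (L j i) * X i) ^ e j :
      MvPolynomial (Fin r) R).support, ∑ j ∈ s, e j * w j ≤ Finsupp.weight W μ := by
    intro s
    induction s using Finset.induction_on with
    | empty =>
      rw [prod_empty, sum_empty, ← C_1]
      exact Loc_low_C W 1
    | insert j s hj ih =>
      rw [prod_insert hj, sum_insert hj]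
      refine Loc_low_mul W ?_ ih
      by_cases he : e j = 0
      · rw [he, pow_zero, Nat.cast_zero, zero_mul, ← C_1]
        exact Loc_low_C W 1
      · exact Loc_low_pow W (Loc_low_lin W (L j) fun l hl => hw j l he hl) (e j)
  have h2 := Loc_low_mul W (Loc_low_C W h) (h1 univ)
  rwa [zero_add] at h2

/- Among the `ρ` with rows in `J` or unit rows and `det ≠ 0` (`ρ = Sum.inr` is one) take one with
`∏ l, v ((rowM u ρ *ᵥ t) l)` minimal.  If `(u j ᵥ* adjugate) l ≠ 0` then `Function.update ρ l (.inl j)` is again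
admissible (`Matrix.cramer_transpose_apply`, or `det_updateRow` with `adjugate_apply`). -/
theorem greedy_rows {K : Type} [Field K] (v : AbsoluteValue K ℝ) (u : Fin q → Fin r → K)
    (J : Finset (Fin q)) (t : Fin r → K) (hu : ∀ j ∈ J, u j ⬝ᵥ t ≠ 0) (ht : ∀ i, t i ≠ 0) :
    ∃ ρ : Fin r → Fin q ⊕ Fin r, (rowM u ρ).det ≠ 0 ∧ (∀ l, (rowM u ρ *ᵥ t) l ≠ 0) ∧
      ∀ j ∈ J, ∀ l, (u j ᵥ* (rowM u ρ).adjugate) l ≠ 0 → v ((rowM u ρ *ᵥ t) l) ≤ v (u j ⬝ᵥ t) := by
  classical
  let S : Finset (Fin r → Fin q ⊕ Fin r) :=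
    univ.filter fun ρ => (rowM u ρ).det ≠ 0 ∧ ∀ l, (rowM u ρ *ᵥ t) l ≠ 0
  have h1 : rowM u Sum.inr = 1 := by
    ext l i
    simp [rowM, Matrix.one_apply, Pi.single_apply, eq_comm]
  obtain ⟨ρ, hρ, hm⟩ := S.exists_min_image (fun ρ => ∏ l, v ((rowM u ρ *ᵥ t) l))
    ⟨Sum.inr, mem_filter.2 ⟨mem_univ _, by simp [h1], by simpa [h1] using ht⟩⟩
  obtain ⟨h2, h3⟩ := (mem_filter.1 hρ).2
  refine ⟨ρ, h2, h3, fun j hj l h => ?_⟩
  have e : rowM u (Function.update ρ l (.inl j)) = (rowM u ρ).updateRow l (u j) := by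
    ext l' i
    rcases eq_or_ne l' l with rfl | h' <;> simp [rowM, *]
  have e1 : rowM u (Function.update ρ l (.inl j)) *ᵥ t =
      Function.update (rowM u ρ *ᵥ t) l (u j ⬝ᵥ t) := by
    rw [e]
    funext l'
    rcases eq_or_ne l' l with rfl | h' <;> simp [Matrix.mulVec, *]
  have e2 : (rowM u (Function.update ρ l (.inl j))).det = (u j ᵥ* (rowM u ρ).adjugate) l := by
    rw [e, ← cramer_transpose_apply, cramer_eq_adjugate_mulVec, ← adjugate_transpose,
      mulVec_transpose]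
  have h4 := hm _ (mem_filter.2 ⟨mem_univ _, e2 ▸ h, fun l' => by
    rw [e1]
    rcases eq_or_ne l' l with rfl | h'
    · simpa using hu j hj
    · simpa [h'] using h3 l'⟩)
  have e3 : ∏ l' ∈ univ.erase l, v (Function.update (rowM u ρ *ᵥ t) l (u j ⬝ᵥ t) l') =
      ∏ l' ∈ univ.erase l, v ((rowM u ρ *ᵥ t) l') :=
    prod_congr rfl fun l' hl' => by rw [Function.update_of_ne (ne_of_mem_erase hl')]
  rw [e1, ← mul_prod_erase _ _ (mem_univ l), ← mul_prod_erase univ _ (mem_univ l),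
    Function.update_self, e3] at h4
  exact le_of_mul_le_mul_right h4 (prod_pos fun l' _ => v.pos (h3 l'))

/- `eval_eq'`, `v.sum_le`; take the monomial with the largest value; `∑ l, μ l = β`. -/
theorem exists_mono {K : Type} [Field K] (v : AbsoluteValue K ℝ) {f : MvPolynomial (Fin r) K}
    {β N : ℕ} (hf : f.IsHomogeneous β) (hN : f.support.card ≤ N) {c M : ℝ} (hM : 0 < M)
    (hc : ∀ μ, v (coeff μ f) ≤ Real.exp c) {z : Fin r → K} (hz : ∀ l, z l ≠ 0)
    (h0 : eval z f ≠ 0) : ∃ μ ∈ f.support, Real.log (v (eval z f)) ≤ Real.log N + c +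
      β * Real.log M - Finsupp.weight (fun l => Real.log (M / v (z l))) μ := by
  classical
  have hne : f.support.Nonempty := by
    rw [Finset.nonempty_iff_ne_empty]
    intro h
    rw [support_eq_empty] at h
    exact h0 (by rw [h, map_zero])
  obtain ⟨μ, hμ, hmax⟩ := Finset.exists_max_image f.support (fun μ => ∏ l, v (z l) ^ μ l) hne
  refine ⟨μ, hμ, ?_⟩
  have hzv : ∀ l, 0 < v (z l) := fun l => v.pos (hz l)
  have hP : 0 < ∏ l, v (z l) ^ μ l := prod_pos fun l _ => pow_pos (hzv l) _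
  have hN0 : (0 : ℝ) < N := by exact_mod_cast (card_pos.2 hne).trans_le hN
  have h1 : v (eval z f) ≤ N * (Real.exp c * ∏ l, v (z l) ^ μ l) := by
    rw [eval_eq']
    refine (v.sum_le _ _).trans ((sum_le_card_nsmul _ _ (Real.exp c * ∏ l, v (z l) ^ μ l)
      fun ν hν => ?_).trans ?_)
    · rw [map_mul, map_prod]
      simp only [map_pow]
      exact mul_le_mul (hc ν) (hmax ν hν) (prod_nonneg fun l _ => pow_nonneg (hzv l).le _)
        (Real.exp_pos _).le
    · rw [nsmul_eq_mul]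
      exact mul_le_mul_of_nonneg_right (by exact_mod_cast hN) (by positivity)
  have h2 := Real.log_le_log (v.pos h0) h1
  rw [Real.log_mul hN0.ne' (by positivity), Real.log_mul (Real.exp_pos _).ne' hP.ne', Real.log_exp,
    Real.log_prod fun l _ => (pow_pos (hzv l) _).ne'] at h2
  have h3 : ∑ l, μ l = β := by
    have h4 := hf (mem_support_iff.1 hμ)
    rw [Finsupp.weight_apply, Finsupp.sum_fintype _ _ (fun _ => by simp)] at h4
    simpa using h4
  have h5 : Finsupp.weight (fun l => Real.log (M / v (z l))) μ =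
      β * Real.log M - ∑ l, Real.log (v (z l) ^ μ l) := by
    rw [Finsupp.weight_apply, Finsupp.sum_fintype _ _ (fun _ => by simp), ← h3, Nat.cast_sum,
      sum_mul, ← sum_sub_distrib]
    refine sum_congr rfl fun l _ => ?_
    rw [Real.log_div hM.ne' (hzv l).ne', Real.log_pow, nsmul_eq_mul, mul_sub]
  rw [h5]
  linarith

end

section

open Finset Matrix MvPolynomial

theorem fib_supp {R K K' ι : Type} [CommRing R] [CommRing K] [CommRing K'] (φ : R →+* K)
    (ψ : R →+* K') (P : MvPolynomial ι R) (h : ∀ g ∈ P.coeffs, φ g = 0 ↔ ψ g = 0) :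
    (map φ P).support = (map ψ P).support := by
  ext μ
  rw [mem_support_iff, mem_support_iff, coeff_map, coeff_map]
  by_cases h0 : coeff μ P = 0
  · rw [h0, map_zero, map_zero]
    exact ⟨fun e => absurd rfl e, fun e => absurd rfl e⟩
  · exact (h _ (coeff_mem_coeffs μ h0)).not

theorem fib_lim {ν T : ℝ} (h : ∀ c : ℝ, 0 < c → c < 1 → c * ν ≤ T) : ν ≤ T := by
  have h1 : Filter.Tendsto (fun c : ℝ => c * ν) (nhdsWithin 1 (Set.Iio 1)) (nhds (1 * ν)) :=
    ((continuous_id.mul continuous_const).tendsto 1).mono_left nhdsWithin_le_nhds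
  rw [one_mul] at h1
  refine le_of_tendsto h1 ?_
  filter_upwards [Ioo_mem_nhdsLT (zero_lt_one' ℝ)] with c hc using h c hc.1 hc.2

end

open Finset Matrix MvPolynomial Height NumberField Pool.Agent.Lib.MP_651af7_nt.Es
  Pool.Agent.Lib.MP_651af7_nt.Rt Pool.Agent.Lib.MP_651af7_nt.Ex

variable {k : Type} [Field k] [NumberField k]

/-- The local height of the divisor of a form of bidegree `(d, β)` with value `g`. -/
noncomputable def lamM {n : ℕ} (v : AbsoluteValue k ℝ) (d β : ℕ) (P : Fin 3 → k) (X : Fin n → k)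
    (g : k) : ℝ :=
  Real.log ((⨆ i, v (P i)) ^ d * (⨆ i, v (X i)) ^ β / v g)

omit [NumberField k] in
theorem main_ml_sup_pos {n : ℕ} (v : AbsoluteValue k ℝ) {X : Fin n → k} (hX : X ≠ 0) :
    0 < ⨆ i, v (X i) := by
  obtain ⟨i, hi⟩ := Function.ne_iff.1 hX
  exact (v.pos hi).trans_le (le_ciSup (f := fun i => v (X i)) (Set.finite_range _).bddAbove i)

omit [NumberField k] in
theorem main_ml_P (v : AbsoluteValue k ℝ) {x y : k} {c : ℝ} (hc : 0 ≤ c) (hx : v x ≤ Real.exp c)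
    (hy : v y ≤ Real.exp c) : 1 ≤ (⨆ i, v (![x, y, 1] i)) ∧ (⨆ i, v (![x, y, 1] i)) ≤ Real.exp c := by
  constructor
  · have := le_ciSup (f := fun i => v (![x, y, 1] i)) (Set.finite_range _).bddAbove 2
    simpa using this
  · refine ciSup_le fun i => ?_
    fin_cases i
    · exact hx
    · exact hy
    · simpa using hc

omit [NumberField k] in
theorem main_ml_lam {n : ℕ} (v : AbsoluteValue k ℝ) (d β : ℕ) {P : Fin 3 → k} {X : Fin n → k}
    {g : k} (hP : 0 < ⨆ i, v (P i)) (hX : X ≠ 0) (hg : g ≠ 0) : lamM v d β P X g =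
      d * Real.log (⨆ i, v (P i)) + β * Real.log (⨆ i, v (X i)) - Real.log (v g) := by
  have h1 := main_ml_sup_pos v hX
  rw [lamM, Real.log_div (by positivity) (v.pos hg).ne', Real.log_mul (by positivity)
    (by positivity), Real.log_pow, Real.log_pow]

/- One place.  `z = N *ᵥ t`, `Mx = ⨆ l, v (z l)`, `Wt l = log (Mx / v (z l))`, `w j = log (Mx / v (u j ⬝ᵥ t))`,
`ν = ∑ j, e m j * w j` for the `m` that makes it least, `l` an index where the second infimum is attained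
(`exists_eq_ciInf_of_finite`, `ciInf_le`).  `lamM (G m) = d log |P| + β log |X| - log v (h m) - ∑ j, e m j * log v (u j ⬝ᵥ t)`
(`eval_prd`; all factors with `e m j ≠ 0` are nonzero), `exists_mono` for `hat N (f l)` (`eval_hat_mul`, `hat_hom`),
`0 ≤ log |P| ≤ c`, and `|log |X| - log Mx| ≤ C (1 + c)` (`sup_cmp` for the square matrix `N` with `e = id`). -/
theorem mult_loc (n r q A A' D : ℕ) : ∃ C : ℝ, 0 ≤ C ∧ ∀ (v : AbsoluteValue k ℝ)
    (u : Fin q → Fin (r + 1) → k) (h : Fin (A + 1) → k) (e : Fin (A + 1) → Fin q → ℕ)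
    (f : Fin (A' + 1) → MvPolynomial (Fin (r + 1)) k) (β : Fin (A' + 1) → ℕ)
    (dG : Fin (A + 1) → ℕ) (df : Fin (A' + 1) → ℕ) (N : Matrix (Fin (r + 1)) (Fin (r + 1)) k)
    (x y : k) (t : Fin (r + 1) → k) (X : Fin n → k) (c : ℝ), 0 ≤ c →
    (∀ m, dG m ≤ D ∧ ∑ j, e m j ≤ D) →
    (∀ l, β l ≤ D ∧ (f l).IsHomogeneous (β l) ∧ (hat N (f l)).support.card ≤ D) →
    Tame v c N → v N.det ≤ Real.exp c → v x ≤ Real.exp c → v y ≤ Real.exp c →
    (∀ m, Real.exp (-c) ≤ v (h m)) → (∀ l μ, v (coeff μ (hat N (f l))) ≤ Real.exp c) → X ≠ 0 →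
    |Real.log (⨆ i, v (X i)) - Real.log (⨆ j, v (t j))| ≤ c → (∀ l, (N *ᵥ t) l ≠ 0) →
    (∀ m, eval t (prd u (h m) (e m)) ≠ 0) → (∀ l, eval t (f l) ≠ 0) →
    (∀ m j l, e m j ≠ 0 → (u j ᵥ* N.adjugate) l ≠ 0 → v ((N *ᵥ t) l) ≤ v (u j ⬝ᵥ t)) →
    (∀ (Wt : Fin (r + 1) → ℝ) (w : Fin q → ℝ) (ν : ℝ), (∀ l, 0 ≤ Wt l) → (∃ l, Wt l = 0) →
      (∀ m j l, e m j ≠ 0 → (u j ᵥ* N.adjugate) l ≠ 0 → w j ≤ Wt l) →
      (∀ m, ν ≤ ∑ j, e m j * w j) →
      ∀ l, ∀ μ ∈ (hat N (f l)).support, ν ≤ Finsupp.weight Wt μ + ∑ l, Wt l) →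
    (⨅ m, lamM v (dG m) (∑ j, e m j) ![x, y, 1] X (eval t (prd u (h m) (e m)))) -
      (⨅ l, lamM v (df l) (β l) ![x, y, 1] X (eval t (f l))) ≤
      ∑ l, lx v X ((N *ᵥ t) l) + C * (1 + c) := by
  obtain ⟨C0, hC0, H0⟩ := sup_cmp (K := k) (r + 1) (r + 1)
  refine ⟨2 * D + 2 + (2 * D + (r + 1)) * (C0 + 1) + D, by positivity, ?_⟩
  intro v u h e f β dG df N x y t X c hc hG hf hT _ hx hy hh hco hX hXt hz hG0 hf0 hle hval
  have ht : t ≠ 0 := by
    rintro rfl
    exact hz 0 (by simp)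
  obtain ⟨hz0, hcmp⟩ := H0 v N id t c hc hT.1 (by simpa [mn] using hT.2) ht
  obtain ⟨hP1, hP2⟩ := main_ml_P v hc hx hy
  have hP0 : 0 < ⨆ i, v (![x, y, 1] i) := one_pos.trans_le hP1
  have hLP0 : 0 ≤ Real.log (⨆ i, v (![x, y, 1] i)) := Real.log_nonneg hP1
  have hLP1 : Real.log (⨆ i, v (![x, y, 1] i)) ≤ c := (Real.log_le_iff_le_exp hP0).2 hP2
  have hM := main_ml_sup_pos v hz0
  have hXp := main_ml_sup_pos v hX
  set z := N *ᵥ t with hzd
  set Mx := ⨆ l, v (z l) with hMx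
  have hzp : ∀ l, 0 < v (z l) := fun l => v.pos (hz l)
  have hzM : ∀ l, v (z l) ≤ Mx := fun l =>
    le_ciSup (f := fun l => v (z l)) (Set.finite_range _).bddAbove l
  obtain ⟨m, -, hm⟩ := Finset.exists_min_image Finset.univ
    (fun m => ∑ j, (e m j : ℝ) * Real.log (Mx / v (u j ⬝ᵥ t))) Finset.univ_nonempty
  obtain ⟨l, hl⟩ := exists_eq_ciInf_of_finite
    (f := fun l => lamM v (df l) (β l) ![x, y, 1] X (eval t (f l)))
  have hv := hval (fun l => Real.log (Mx / v (z l))) (fun j => Real.log (Mx / v (u j ⬝ᵥ t))) _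
    (fun l => Real.log_nonneg ((one_le_div (hzp l)).2 (hzM l)))
    (by
      obtain ⟨l, hl⟩ := exists_eq_ciSup_of_finite (f := fun l => v (z l))
      exact ⟨l, by rw [hl, div_self hM.ne', Real.log_one]⟩)
    (fun m j l h1 h2 => by
      have h3 := hle m j l h1 h2
      exact Real.log_le_log (div_pos hM ((hzp l).trans_le h3))
        (div_le_div_of_nonneg_left hM.le (hzp l) h3))
    (fun m' => hm m' (Finset.mem_univ _)) l
  have hdet : 0 < v N.det := (Real.exp_pos _).trans_le hT.2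
  have hdet0 : N.det ≠ 0 := v.pos_iff.1 hdet
  have hev := eval_hat_mul N (hf l).2.1 t
  obtain ⟨μ, hμ, hmono⟩ := exists_mono v (hat_hom N (hf l).2.1) (hf l).2.2 hM (hco l) hz
    (by rw [hev]; exact mul_ne_zero (pow_ne_zero _ hdet0) (hf0 l))
  have h1 := hv μ hμ
  rw [hev, map_mul, map_pow, Real.log_mul (by positivity) (v.pos (hf0 l)).ne', Real.log_pow]
    at hmono
  have hld : -c ≤ Real.log (v N.det) := (Real.le_log_iff_exp_le hdet).2 hT.2
  have hhp : 0 < v (h m) := (Real.exp_pos _).trans_le (hh m)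
  have hlh : -c ≤ Real.log (v (h m)) := (Real.le_log_iff_exp_le hhp).2 (hh m)
  have hGm := hG0 m
  rw [eval_prd] at hGm
  have hfac : ∀ j, (u j ⬝ᵥ t) ^ e m j ≠ 0 := fun j =>
    Finset.prod_ne_zero_iff.1 (right_ne_zero_of_mul hGm) j (Finset.mem_univ _)
  have h2 : Real.log (v (eval t (prd u (h m) (e m)))) = Real.log (v (h m)) +
      ((∑ j, e m j : ℕ) * Real.log Mx - ∑ j, (e m j : ℝ) * Real.log (Mx / v (u j ⬝ᵥ t))) := by
    rw [eval_prd, map_mul, Real.log_mul hhp.ne' (v.pos (right_ne_zero_of_mul hGm)).ne', map_prod,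
      Real.log_prod fun j _ => (v.pos (hfac j)).ne', Nat.cast_sum, Finset.sum_mul,
      ← Finset.sum_sub_distrib]
    congr 1
    refine Finset.sum_congr rfl fun j _ => ?_
    rw [map_pow, Real.log_pow]
    by_cases h0 : e m j = 0
    · simp [h0]
    · rw [Real.log_div hM.ne' (v.pos (ne_zero_pow h0 (hfac j))).ne']
      ring
  have h3 : (⨅ m, lamM v (dG m) (∑ j, e m j) ![x, y, 1] X (eval t (prd u (h m) (e m)))) ≤
      lamM v (dG m) (∑ j, e m j) ![x, y, 1] X (eval t (prd u (h m) (e m))) :=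
    ciInf_le (Set.finite_range _).bddBelow m
  rw [main_ml_lam v _ _ hP0 hX (hG0 m), h2] at h3
  rw [← hl, main_ml_lam v _ _ hP0 hX (hf0 l)]
  have h4 : ∑ l, Real.log (Mx / v (z l)) =
      ∑ l, lx v X (z l) - (r + 1) * (Real.log (⨆ i, v (X i)) - Real.log Mx) := by
    have : ∀ l, Real.log (Mx / v (z l)) =
        lx v X (z l) - (Real.log (⨆ i, v (X i)) - Real.log Mx) := fun l => by
      rw [lx, Real.log_div hM.ne' (hzp l).ne', Real.log_div hXp.ne' (hzp l).ne']
      ring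
    simp only [this, Finset.sum_sub_distrib]
    simp
    ring
  rw [h4] at h1
  set LP := Real.log (⨆ i, v (![x, y, 1] i))
  set LX := Real.log (⨆ i, v (X i))
  set LM := Real.log Mx
  have hE : |LX - LM| ≤ (C0 + 1) * (1 + c) := by
    have k1 := abs_le.1 hXt
    have k2 := abs_le.1 hcmp
    rw [abs_le]
    constructor <;> linarith [k1.1, k1.2, k2.1, k2.2]
  set E := (C0 + 1) * (1 + c) with hEd
  have hE0 : 0 ≤ E := (abs_nonneg _).trans hE
  have hE' := abs_le.1 hE
  have b1 : ((dG m : ℕ) : ℝ) ≤ D := by exact_mod_cast (hG m).1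
  have b2 : ((∑ j, e m j : ℕ) : ℝ) ≤ D := by exact_mod_cast (hG m).2
  have b3 : ((β l : ℕ) : ℝ) ≤ D := by exact_mod_cast (hf l).1
  have hD : (0 : ℝ) ≤ D := Nat.cast_nonneg _
  have k1 : (dG m : ℝ) * LP ≤ D * c := mul_le_mul b1 hLP1 hLP0 hD
  have k2 : ((∑ j, e m j : ℕ) : ℝ) * (LX - LM) ≤ D * E :=
    (mul_le_mul_of_nonneg_left hE'.2 (Nat.cast_nonneg _)).trans (mul_le_mul_of_nonneg_right b2 hE0)
  have k3 : (β l : ℝ) * (LM - LX) ≤ D * E :=
    (mul_le_mul_of_nonneg_left (by linarith [hE'.1]) (Nat.cast_nonneg _)).trans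
      (mul_le_mul_of_nonneg_right b3 hE0)
  have k4 : (β l : ℝ) * -Real.log (v N.det) ≤ D * c :=
    (mul_le_mul_of_nonneg_left (by linarith) (Nat.cast_nonneg _)).trans
      (mul_le_mul_of_nonneg_right b3 hc)
  have k5 : 0 ≤ (df l : ℝ) * LP := mul_nonneg (Nat.cast_nonneg _) hLP0
  have k6 : ((r : ℝ) + 1) * (LM - LX) ≤ (r + 1) * E :=
    mul_le_mul_of_nonneg_left (by linarith [hE'.1]) (by positivity)
  have k7 : Real.log D ≤ D := Real.log_le_self hD
  have k8 : 0 ≤ (D : ℝ) * c := mul_nonneg hD hc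
  have k9 : (2 * D + 2 + (2 * D + (r + 1)) * (C0 + 1) + D) * (1 + c) =
      (2 * D + 2 + D) * (1 + c) + (2 * D + (r + 1)) * E := by rw [hEd]; ring
  rw [k9]
  linarith

theorem multU_hom {R : Type} [CommRing R] {r q : ℕ} (L : Fin q → Fin r → R) (h : R)
    (e : Fin q → ℕ) : (prd L h e).IsHomogeneous (∑ j, e j) := by
  refine IsHomogeneous.C_mul (IsHomogeneous.prod _ _ _ fun j _ => ?_) h
  simpa only [one_mul] using (IsHomogeneous.sum univ _ 1 fun i _ =>
    (isHomogeneous_X R i).C_mul (L j i)).pow (e j)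

theorem multU_set {R : Type} [CommRing R] {n r q A A' : ℕ} (a b : R) (B : Matrix (Fin n) (Fin r) R)
    (L : Fin q → Fin r → R) (h : Fin A → R) (f : Fin A' → MvPolynomial (Fin r) R) :
    ∃ Gs : Finset R, a ∈ Gs ∧ b ∈ Gs ∧ (∀ m, h m ∈ Gs) ∧ (∀ i j, B i j ∈ Gs) ∧
      (∀ s, mn B s ∈ Gs) ∧ (∀ ρ i j, rowM L ρ i j ∈ Gs) ∧ (∀ ρ, (rowM L ρ).det ∈ Gs) ∧
      ∀ ρ l μ, coeff μ (hat (rowM L ρ) (f l)) ∈ Gs := by
  classical
  refine ⟨{a, b, 0} ∪ (univ.image h ∪ (univ.image (fun z : Fin n × Fin r => B z.1 z.2) ∪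
    (univ.image (mn B) ∪
    (univ.image (fun z : (Fin r → Fin q ⊕ Fin r) × Fin r × Fin r => rowM L z.1 z.2.1 z.2.2) ∪
    (univ.image (fun ρ => (rowM L ρ).det) ∪
    univ.biUnion fun z : (Fin r → Fin q ⊕ Fin r) × Fin A' => (hat (rowM L z.1) (f z.2)).coeffs))))),
    mem_union_left _ (by simp), mem_union_left _ (by simp), fun m => ?_, fun i j => ?_, fun s => ?_,
    fun ρ i j => ?_, fun ρ => ?_, fun ρ l μ => ?_⟩
  · exact mem_union_right _ (mem_union_left _ (mem_image_of_mem _ (mem_univ _)))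
  · iterate 2 apply mem_union_right
    exact mem_union_left _ (mem_image.2 ⟨(i, j), mem_univ _, rfl⟩)
  · iterate 3 apply mem_union_right
    exact mem_union_left _ (mem_image_of_mem _ (mem_univ _))
  · iterate 4 apply mem_union_right
    exact mem_union_left _ (mem_image.2 ⟨(ρ, i, j), mem_univ _, rfl⟩)
  · iterate 5 apply mem_union_right
    exact mem_union_left _ (mem_image_of_mem (fun ρ => (rowM L ρ).det) (mem_univ _))
  · by_cases h0 : coeff μ (hat (rowM L ρ) (f l)) = 0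
    · exact mem_union_left _ (by simp [h0])
    · iterate 6 apply mem_union_right
      exact mem_biUnion.2 ⟨(ρ, l), mem_univ _, coeff_mem_coeffs μ h0⟩


end Pool.Agent.Lib.MP_8865d3_nt.En
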