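import Pool.Agent.Lib.MP_8865d3_nt.Em.Val
import Pool.Agent.Lib.MP_8865d3_nt.Am.Pre
import Pool.Agent.Lib.MP_651af7_nt.As.Fin

/-! The valuative criterion at the rational points of an abelian variety. -/

namespace Pool.Agent.Lib.MP_8865d3_nt.Am

open Finset Matrix MvPolynomial MeasureTheory
open Pool.Agent.Lib.MP_651af7_nt Pool.Agent.Lib.MP_8865d3_nt.Em Pool.Agent.Lib.MP_8865d3_nt.En
open Av (AV aeval_mul_of_hom zero_mul_of_hom)
open As (Aff exists_homog)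

variable {k ι : Type} [Field k]

/-- Local integrability on the fibres over a Zariski dense set of complex points. -/
def InMultA {r : ℕ} {M : Type} [Fintype M] (σ : k →+* ℂ) (I : Ideal (MvPolynomial ι k))
    (G : M → MvPolynomial (Fin r) (MvPolynomial ι k))
    (f : MvPolynomial (Fin r) (MvPolynomial ι k)) : Prop :=
  ∀ c : ℝ, 0 < c → c < 1 → ∀ (Θ : MvPolynomial ι k) (s : ℕ), Θ.IsHomogeneous s → Θ ∉ I →
    ∃ x : ι → ℂ, (∀ P ∈ I, eval₂ σ x P = 0) ∧ eval₂ σ x Θ ≠ 0 ∧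
      LocallyIntegrableOn (fun t : Fin r → ℂ => ‖eval₂ (eval₂Hom σ x) t f‖ ^ 2 /
        (∑ m, ‖eval₂ (eval₂Hom σ x) t (G m)‖ ^ 2) ^ c) {t | t ≠ 0} volume

theorem X_ao_notMem (A : AV k ι) : (X A.ao : MvPolynomial ι k) ∉ A.I := fun hx => by
  have := (A.rep_zero (R := k)).zero _ hx
  rw [aeval_X, A.o_ao, map_one] at this
  exact one_ne_zero this

theorem eval₂_scale (σ : k →+* ℂ) {P : MvPolynomial ι k} {d : ℕ} (hP : P.IsHomogeneous d) (c : ℂ)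
    (x : ι → ℂ) : eval₂Hom σ (fun a => c * x a) P = c ^ d * eval₂Hom σ x P := by
  let _ := σ.toAlgebra
  exact aeval_mul_of_hom hP c x

theorem same_zeroA (A : AV k ι) (σ : k →+* ℂ) (Gs : Finset (MvPolynomial ι k)) :
    ∃ (Θ : MvPolynomial ι k) (s : ℕ), Θ.IsHomogeneous s ∧ Θ ∉ A.I ∧ ∀ x : ι → k, Aff A A.ao x →
      eval x Θ ≠ 0 → ∀ y : ι → ℂ, y A.ao = 1 → (∀ P ∈ A.I, eval₂Hom σ y P = 0) →
      eval₂Hom σ y Θ ≠ 0 → ∀ g ∈ Gs, (eval x g = 0 ↔ eval₂Hom σ y g = 0) := by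
  classical
  let _ := σ.toAlgebra
  choose Q hQ hQ' using fun g : MvPolynomial ι k => exists_homog A.ao g le_rfl
  have hp := A.isPrime
  refine ⟨∏ g ∈ Gs.filter (fun g => Q g ∉ A.I), Q g, _,
    IsHomogeneous.prod _ _ _ fun g _ => hQ g, fun h => ?_, fun x hx h1 y hy hz h2 g hg => ?_⟩
  · obtain ⟨g, hg, h'⟩ := Ideal.IsPrime.prod_mem_iff.1 h
    exact (mem_filter.1 hg).2 h'
  · have e1 : eval x (Q g) = eval x g := by simpa only [aeval_eq_eval] using hQ' g k x hx.1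
    have e2 : eval₂Hom σ y (Q g) = eval₂Hom σ y g := hQ' g ℂ y hy
    rw [← e1, ← e2]
    by_cases h : Q g ∈ A.I
    · exact iff_of_true (hx.2 _ h) (hz _ h)
    · rw [map_prod, prod_ne_zero_iff] at h1 h2
      exact iff_of_false (h1 g (mem_filter.2 ⟨hg, h⟩)) (h2 g (mem_filter.2 ⟨hg, h⟩))

theorem map_scale {r : ℕ} (σ : k →+* ℂ) {P : MvPolynomial (Fin r) (MvPolynomial ι k)} {d : ℕ}
    (hP : ∀ μ, (coeff μ P).IsHomogeneous d) (c : ℂ) (x : ι → ℂ) :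
    map (eval₂Hom σ fun a => c * x a) P = C (c ^ d) * map (eval₂Hom σ x) P := by
  ext μ
  rw [coeff_map, coeff_C_mul, coeff_map, eval₂_scale σ (hP μ)]

theorem hat_C_mul {R : Type} [CommRing R] {r : ℕ} (N : Matrix (Fin r) (Fin r) R) (a : R)
    (P : MvPolynomial (Fin r) R) : hat N (C a * P) = C a * hat N P := by
  simp only [hat, map_mul, aeval_C, algebraMap_eq]

theorem supp_C_mul {r : ℕ} {a : ℂ} (ha : a ≠ 0) (P : MvPolynomial (Fin r) ℂ) :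
    (C a * P).support = P.support := by
  ext μ
  simp only [mem_support_iff, coeff_C_mul, ne_eq, mul_eq_zero, ha, false_or]

theorem val_ptA (A : AV k ι) (σ : k →+* ℂ) {r q : ℕ} {M : Type} [Fintype M]
    (L : Fin q → Fin r → MvPolynomial ι k) (h : M → MvPolynomial ι k) (e : M → Fin q → ℕ)
    {dG : M → ℕ} (hG : ∀ m μ, (coeff μ (prd L (h m) (e m))).IsHomogeneous (dG m))
    {f : MvPolynomial (Fin r) (MvPolynomial ι k)} {df : ℕ}
    (hd : ∀ μ, (coeff μ f).IsHomogeneous df)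
    (hf : InMultA σ A.I (fun m => prd L (h m) (e m)) f) :
    ∃ (Θ : MvPolynomial ι k) (s : ℕ), Θ.IsHomogeneous s ∧ Θ ∉ A.I ∧ ∀ x : ι → k, Aff A A.ao x →
      eval x Θ ≠ 0 → ∀ ρ : Fin r → Fin q ⊕ Fin r, ((rowM L ρ).map (eval x)).det ≠ 0 →
      (∃ m, map (eval x) (hat (rowM L ρ) (prd L (h m) (e m))) ≠ 0) →
      ∀ (Wt : Fin r → ℝ) (w : Fin q → ℝ) (ν : ℝ), (∀ l, 0 ≤ Wt l) → (∃ l, Wt l = 0) →
      (∀ m j l, e m j ≠ 0 → eval x ((L j ᵥ* (rowM L ρ).adjugate) l) ≠ 0 → w j ≤ Wt l) →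
      (∀ m, ν ≤ ∑ j, e m j * w j) →
      ∀ μ ∈ (map (eval x) (hat (rowM L ρ) f)).support,
        ν ≤ Finsupp.weight Wt μ + ∑ l, Wt l := by
  classical
  obtain ⟨Gs, g2, g3, g4, g5⟩ : ∃ Gs : Finset (MvPolynomial ι k),
      (∀ ρ, (rowM L ρ).det ∈ Gs) ∧ (∀ ρ j l, (L j ᵥ* (rowM L ρ).adjugate) l ∈ Gs) ∧
      (∀ ρ m, (hat (rowM L ρ) (prd L (h m) (e m))).coeffs ⊆ Gs) ∧
      ∀ ρ, (hat (rowM L ρ) f).coeffs ⊆ Gs := by
    have f2 := Set.finite_range fun ρ => (rowM L ρ).det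
    have f3 := Set.finite_range fun p : (Fin r → Fin q ⊕ Fin r) × Fin q × Fin r =>
      (L p.2.1 ᵥ* (rowM L p.1).adjugate) p.2.2
    have f4 := Set.finite_iUnion fun p : (Fin r → Fin q ⊕ Fin r) × M =>
      (hat (rowM L p.1) (prd L (h p.2) (e p.2))).coeffs.finite_toSet
    have f5 := Set.finite_iUnion fun ρ => (hat (rowM L ρ) f).coeffs.finite_toSet
    refine ⟨(f2.union (f3.union (f4.union f5))).toFinset, fun ρ => ?_,
      fun ρ j l => ?_, fun ρ m g hg => ?_, fun ρ g hg => ?_⟩ <;> rw [Set.Finite.mem_toFinset]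
    · exact Or.inl ⟨ρ, rfl⟩
    · exact Or.inr (Or.inl ⟨(ρ, j, l), rfl⟩)
    · exact Or.inr (Or.inr (Or.inl (Set.mem_iUnion.2 ⟨(ρ, m), hg⟩)))
    · exact Or.inr (Or.inr (Or.inr (Set.mem_iUnion.2 ⟨ρ, hg⟩)))
  obtain ⟨Θ, s, hΘ, hΘI, hZ⟩ := same_zeroA A σ Gs
  refine ⟨Θ, s, hΘ, hΘI,
    fun x hx hxΘ ρ hdet ⟨m₀, hm₀⟩ Wt w ν hW ⟨i₀, hi₀⟩ hw hν μ hμ => ?_⟩
  refine fib_lim fun c hc hc1 => ?_
  obtain ⟨x', z1, z2, hI⟩ := hf c hc hc1 (X A.ao * Θ) _ ((isHomogeneous_X k A.ao).mul hΘ)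
    fun h' => (A.isPrime.mem_or_mem h').elim (X_ao_notMem A) hΘI
  rw [eval₂_mul, eval₂_X, mul_ne_zero_iff] at z2
  obtain ⟨a, y, ha, hy, rfl⟩ : ∃ (a : ℂ) (y : ι → ℂ), a ≠ 0 ∧ y A.ao = 1 ∧ x' = fun i => a * y i :=
    ⟨x' A.ao, fun i => (x' A.ao)⁻¹ * x' i, z2.1, inv_mul_cancel₀ z2.1,
      funext fun i => (mul_inv_cancel_left₀ z2.1 _).symm⟩
  have y1 : ∀ P ∈ A.I, eval₂Hom σ y P = 0 := fun P hP => by
    let _ := σ.toAlgebra
    have := zero_mul_of_hom A.hom (v := fun i => a * y i) z1 a⁻¹ P hP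
    simp only [inv_mul_cancel_left₀ ha] at this
    exact this
  have y2 : eval₂Hom σ y Θ ≠ 0 := fun h0 =>
    z2.2 ((eval₂_scale σ hΘ a y).trans (by rw [h0, mul_zero]))
  replace hZ := hZ x hx hxΘ y hy y1 y2
  simp only [← eval_map, map_scale σ hd, map_scale σ (hG _)] at hI
  generalize eval₂Hom σ y = φ at hZ hI
  have hd' : ((rowM L ρ).map φ).adjugate.det ≠ 0 := by
    rw [det_adjugate]
    refine pow_ne_zero _ ?_
    rw [← RingHom.mapMatrix_apply, ← RingHom.map_det] at hdet ⊢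
    exact (hZ _ (g2 ρ)).not.1 hdet
  have hI' := li_lin hd' hI
  simp only [← eval_hat, hat_C_mul, ← hat_map] at hI'
  refine val_fib (fun m => C (a ^ dG m) * map φ (hat (rowM L ρ) (prd L (h m) (e m)))) _ hc hI' Wt
    hW hi₀ (fun m μ' hμ' => (hν m).trans ?_) (m₀ := m₀) ?_ ?_
  · rw [supp_C_mul (pow_ne_zero _ ha), hat_prd, prd_map] at hμ'
    exact low_prd _ _ _ Wt w (fun j l h1 h2 => hw m j l h1 ((hZ _ (g3 ρ j l)).not.2 h2)) μ' hμ'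
  · rwa [← support_nonempty, supp_C_mul (pow_ne_zero _ ha),
      ← fib_supp _ φ _ fun g hg => hZ g (g4 ρ m₀ hg), support_nonempty]
  · rwa [supp_C_mul (pow_ne_zero _ ha), ← fib_supp _ φ _ fun g hg => hZ g (g5 ρ hg)]

end Pool.Agent.Lib.MP_8865d3_nt.Am
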